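import Pool.Agent.H14.SspG31
import Pool.Agent.H14.SspUni
import Pool.Agent.H14.SspDefs2

set_option autoImplicit false

namespace Pool.Agent.Results.MP_3aeeeb_co.TwoTails

open Pool.Agent.H14 Pool.Agent.H14.Q Pool.Agent.H14.SspG31 SimpleGraph

def c : G.Walk 0 0 :=
  .cons (v := 1) (by decide) <| .cons (v := 2) (by decide) <| .cons (v := 3) (by decide) <|
  .cons (v := 0) (by decide) .nil

instance (m k : ℕ) : DecidableRel (tadpole m k).Adj := fun a b =>
  decidable_of_iff _ (fromRel_adj _ a b).symm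

theorem noiso (H : SimpleGraph (Fin 8)) [DecidableRel H.Adj]
    (h : ∀ v, H.degree v = 3 → v = 0) : IsEmpty (G ≃g H) := by
  refine ⟨fun e => ?_⟩
  have h0 := h (e 0) (by rw [e.degree_eq]; decide)
  have h1 := h (e 1) (by rw [e.degree_eq]; decide)
  exact absurd (e.injective (h0.trans h1.symm)) (by decide)

theorem result : ∃ (n g : ℕ) (G : SimpleGraph (Fin n)), (g = 4 ∨ g = 5) ∧ Unicyclic G g ∧
    SSPGraph G ∧ ∀ m k : ℕ, (m = 4 ∨ m = 5) → IsEmpty (G ≃g tadpole m k) := by
  refine ⟨8, 4, G, Or.inl rfl, uni G (conn3 G 0 (by decide)) (by decide) c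
    (by rw [Walk.isCycle_def, Walk.isTrail_def]; decide), ssp, fun m k hm => ⟨fun e => ?_⟩⟩
  have hc : 8 = m + k := by simpa using Fintype.card_congr e.toEquiv
  rcases hm with rfl | rfl
  · obtain rfl : k = 4 := by omega
    exact (noiso (tadpole 4 4) (by decide)).false e
  · obtain rfl : k = 3 := by omega
    exact (noiso (tadpole 5 3) (by decide)).false e

end Pool.Agent.Results.MP_3aeeeb_co.TwoTails
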